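import Pool.Agent.H30.AV.Targets3

/-!
# MP_70ba79_ag, board `avr_modules`: LR1, LR2, linear relations between generators of a field
-/

set_option autoImplicit false

namespace Pool.Agent.H52.AV

open MvPolynomial SC Pool.Agent.H27.LV Pool.Agent.H30.AV

open scoped IntermediateField.algebraAdjoinAdjoin in
/-- the transcendence degree of a field generated by a set -/
theorem trdeg_adjoin {F E : Type} [Field F] [Field E] [Algebra F E] (s : Set E) :
    Algebra.trdeg F (IntermediateField.adjoin F s) = Algebra.trdeg F (Algebra.adjoin F s) := by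
  rw [← trdeg_add_eq F (Algebra.adjoin F s) (A := IntermediateField.adjoin F s),
        (trdeg_eq_zero_iff (R := Algebra.adjoin F s)
          (A := IntermediateField.adjoin F s)).2 inferInstance, add_zero]

/-- a field generated by the elements of a finite set has transcendence degree at most the number
of the elements -/
theorem trdeg_adjoin_le {F E A : Type} [Field F] [Field E] [Algebra F E] (α : A → E)
    (T : Finset A) (h : ∀ s, α s ∈ IntermediateField.adjoin F (α '' T)) :
    Algebra.trdeg F (IntermediateField.adjoin F (Set.range α)) ≤ (T.card : Cardinal) := by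
  have h1 : IntermediateField.adjoin F (Set.range α) = IntermediateField.adjoin F (α '' T) := by
    apply le_antisymm
    · rw [IntermediateField.adjoin_le_iff]
      rintro _ ⟨s, rfl⟩
      exact h s
    · exact IntermediateField.adjoin.mono _ _ _ (Set.image_subset_range _ _)
  rw [h1, trdeg_adjoin]
  have h2 : Algebra.adjoin F (α '' T) = (aeval (R := F) fun s : T => α s).range := by
    rw [← Algebra.adjoin_range_eq_range_aeval]
    congr 1
    ext z
    simp
  have h3 : Algebra.trdeg F (aeval (R := F) fun s : T => α s).range ≤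
      Algebra.trdeg F (MvPolynomial T F) :=
    trdeg_le_of_surjective (aeval (R := F) fun s : T => α s).rangeRestrict
      (AlgHom.rangeRestrict_surjective _)
  rw [h2]
  refine h3.trans ?_
  rw [MvPolynomial.trdeg_of_isDomain]
  simp

theorem pf_LR1 : T_LR1 := by
  classical
  intro k Ω _ _ _ A _ α F u hu hu0 hrel
  obtain ⟨s1, hs1⟩ : ∃ s, u s ≠ 0 := by
    by_contra hc
    push Not at hc
    exact hu0 (funext hc)
  have hcard : ((Finset.univ.erase s1).card : ℕ) + 1 = Fintype.card A := by
    rw [Finset.card_erase_add_one (Finset.mem_univ _)]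
    rfl
  rw [← hcard]
  push_cast
  gcongr
  apply trdeg_adjoin_le
  intro s
  by_cases hs : s = s1
  · subst hs
    have h1 : α s = - (∑ t ∈ Finset.univ.erase s, u t * α t) / u s := by
      rw [eq_div_iff hs1]
      rw [← Finset.add_sum_erase _ _ (Finset.mem_univ s)] at hrel
      linear_combination hrel
    rw [h1]
    refine div_mem (neg_mem (sum_mem fun t ht => mul_mem ?_ ?_)) ?_
    · exact (IntermediateField.adjoin F _).algebraMap_mem ⟨u t, hu t⟩
    · exact IntermediateField.subset_adjoin _ _ ⟨t, ht, rfl⟩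
    · exact (IntermediateField.adjoin F _).algebraMap_mem ⟨u s, hu s⟩
  · exact IntermediateField.subset_adjoin _ _ ⟨s, by simpa using hs, rfl⟩

theorem pf_LR2 : T_LR2 := by
  classical
  intro k Ω _ _ _ A _ α F u u' hu hu' hli hrel hrel'
  obtain ⟨s1, s2, hd⟩ : ∃ s1 s2, u s1 * u' s2 - u s2 * u' s1 ≠ 0 := by
    by_contra hc
    push Not at hc
    have hne : u ≠ 0 := by
      have := hli.ne_zero 0
      simpa using this
    obtain ⟨s1, hs1⟩ : ∃ s, u s ≠ 0 := by
      by_contra hc
      push Not at hc
      exact hne (funext hc)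
    rw [LinearIndependent.pair_iff] at hli
    have h1 := hli (u' s1) (- u s1) (by
      funext s
      simp only [Pi.add_apply, Pi.smul_apply, smul_eq_mul, Pi.zero_apply]
      linear_combination -(hc s1 s))
    exact hs1 (by simpa using h1.2)
  have hne : s1 ≠ s2 := by
    rintro rfl
    exact hd (sub_self _)
  have hcard : (((Finset.univ.erase s1).erase s2).card : ℕ) + 2 = Fintype.card A := by
    have h1 : ((Finset.univ.erase s1).erase s2).card + 1 = (Finset.univ.erase s1).card :=
      Finset.card_erase_add_one (Finset.mem_erase.2 ⟨hne.symm, Finset.mem_univ _⟩)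
    have h2 : (Finset.univ.erase s1).card + 1 = Fintype.card A := by
      rw [Finset.card_erase_add_one (Finset.mem_univ _)]
      rfl
    omega
  rw [← hcard]
  push_cast
  gcongr
  apply trdeg_adjoin_le
  have hmem : ∀ t, ∀ v : A → Ω, (∀ s, v s ∈ F) → v t ∈ IntermediateField.adjoin F
      (α '' ((Finset.univ.erase s1).erase s2 : Finset A)) := by
    intro t v hv
    exact (IntermediateField.adjoin F _).algebraMap_mem ⟨v t, hv t⟩
  have hR : ∀ v : A → Ω, (∀ s, v s ∈ F) → ∑ t ∈ (Finset.univ.erase s1).erase s2, v t * α t ∈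
      IntermediateField.adjoin F (α '' ((Finset.univ.erase s1).erase s2 : Finset A)) := by
    intro v hv
    refine sum_mem fun t ht => mul_mem (hmem t v hv) ?_
    exact IntermediateField.subset_adjoin _ _ ⟨t, ht, rfl⟩
  have hsum : ∀ v : A → Ω, ∑ s, v s * α s = v s1 * α s1 + (v s2 * α s2 +
      ∑ t ∈ (Finset.univ.erase s1).erase s2, v t * α t) := by
    intro v
    rw [← Finset.add_sum_erase _ _ (Finset.mem_univ s1),
      ← Finset.add_sum_erase _ _ (Finset.mem_erase.2 ⟨hne.symm, Finset.mem_univ s2⟩)]
  rw [hsum] at hrel hrel'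
  obtain ⟨R, hRd⟩ : ∃ R, R = ∑ t ∈ (Finset.univ.erase s1).erase s2, u t * α t := ⟨_, rfl⟩
  obtain ⟨R', hRd'⟩ : ∃ R', R' = ∑ t ∈ (Finset.univ.erase s1).erase s2, u' t * α t := ⟨_, rfl⟩
  have hRm := hR u hu
  have hRm' := hR u' hu'
  rw [← hRd] at hrel hRm
  rw [← hRd'] at hrel' hRm'
  have hdm : u s1 * u' s2 - u s2 * u' s1 ∈ IntermediateField.adjoin F
      (α '' ((Finset.univ.erase s1).erase s2 : Finset A)) :=
    sub_mem (mul_mem (hmem _ _ hu) (hmem _ _ hu')) (mul_mem (hmem _ _ hu) (hmem _ _ hu'))
  intro s
  by_cases hs : s = s1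
  · subst hs
    have h1 : α s = (u s2 * R' - R * u' s2) / (u s * u' s2 - u s2 * u' s) := by
      rw [eq_div_iff hd]
      linear_combination u' s2 * hrel - u s2 * hrel'
    rw [h1]
    exact div_mem (sub_mem (mul_mem (hmem _ _ hu) hRm') (mul_mem hRm (hmem _ _ hu'))) hdm
  · by_cases hs' : s = s2
    · subst hs'
      have h1 : α s = (u' s1 * R - u s1 * R') / (u s1 * u' s - u s * u' s1) := by
        rw [eq_div_iff hd]
        linear_combination u s1 * hrel' - u' s1 * hrel
      rw [h1]
      exact div_mem (sub_mem (mul_mem (hmem _ _ hu') hRm) (mul_mem (hmem _ _ hu) hRm')) hdm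
    · exact IntermediateField.subset_adjoin _ _ ⟨s, by simp [hs, hs'], rfl⟩

end Pool.Agent.H52.AV
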