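import Pool.Agent.H52.AV.IND

/-!
# MP_70ba79_ag, board `avr_modules`: INZ, induction over the closed subsets of the variety
-/

set_option autoImplicit false

namespace Pool.Agent.H52.AV

open MvPolynomial SC Pool.Agent.H27.LV Pool.Agent.H30.AV

/-- the transcendence degree of the coordinate ring of an irreducible closed subset -/
lemma trdeg_le_of_dimLE {k : Type} [Field k] {n r : ℕ} {Q : Set (MvPolynomial (Fin n) k)}
    (hQ : DimLE Q r) (Z : Ideal (MvPolynomial (Fin n) k)) (hZ : Z.IsPrime)
    (hQZ : Ideal.span Q ≤ Z) :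
    Algebra.trdeg k (MvPolynomial (Fin n) k ⧸ Z) ≤ (r : Cardinal) := by
  classical
  by_contra hc
  push Not at hc
  let R := MvPolynomial (Fin n) k ⧸ Z
  let y : Fin n → R := fun i => Ideal.Quotient.mk Z (X i)
  have hmk : ∀ g : MvPolynomial (Fin n) k, aeval y g = Ideal.Quotient.mk Z g := by
    intro g
    have h1 : aeval y = Ideal.Quotient.mkₐ k Z := by
      apply MvPolynomial.algHom_ext
      intro i
      rw [aeval_X]
      rfl
    rw [h1]
    rfl
  have htop : Algebra.adjoin k (Set.range y) = ⊤ := by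
    rw [Algebra.adjoin_range_eq_range_aeval, eq_top_iff]
    rintro z -
    obtain ⟨g, rfl⟩ := Ideal.Quotient.mk_surjective z
    exact ⟨g, hmk g⟩
  have halg : Algebra.IsAlgebraic (Algebra.adjoin k (Set.range y)) R := by
    refine ⟨fun z => ?_⟩
    have hz : z ∈ Algebra.adjoin k (Set.range y) := by rw [htop]; trivial
    exact isAlgebraic_algebraMap (R := Algebra.adjoin k (Set.range y)) (A := R) ⟨z, hz⟩
  obtain ⟨t, hts, ht⟩ := exists_isTranscendenceBasis_subset (R := k) (Set.range y)
  have hcard : Cardinal.mk t = Algebra.trdeg k R := ht.cardinalMk_eq_trdeg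
  have hle : ((r + 1 : ℕ) : Cardinal) ≤ Cardinal.mk t := by
    rw [hcard]
    have h1 := Order.succ_le_of_lt hc
    rw [Cardinal.succ_natCast] at h1
    exact_mod_cast h1
  have hle' : Cardinal.mk (Fin (r + 1)) ≤ Cardinal.mk t := by
    rw [Cardinal.mk_fin]
    exact hle
  obtain ⟨φ⟩ := hle'
  have hs : ∀ i : Fin (r + 1), ∃ j, y j = (φ i : R) := fun i => hts (φ i).2
  choose s hs using hs
  have hind : AlgebraicIndependent k fun i => y (s i) := by
    have h1 : (fun i => y (s i)) = (fun z : t => (z : R)) ∘ φ := by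
      funext i
      exact hs i
    rw [h1]
    exact ht.1.comp φ φ.injective
  have hfin : AlgebraicIndependent k fun i => algebraMap R (FractionRing R) (y (s i)) := by
    have h2 := hind.map' (f := IsScalarTower.toAlgHom k R (FractionRing R))
      (IsFractionRing.injective R (FractionRing R))
    exact h2
  refine hQ (FractionRing R) (fun j => algebraMap R (FractionRing R) (y j)) ?_ s hfin
  intro g hg
  have h3 : aeval (fun j => algebraMap R (FractionRing R) (y j)) g =
      algebraMap R (FractionRing R) (aeval y g) := by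
    rw [← MvPolynomial.aeval_algebraMap_apply]
    rfl
  rw [h3, hmk, Ideal.Quotient.eq_zero_iff_mem.2 (hQZ (Ideal.subset_span hg)), map_zero]

theorem pf_INZ (hTAN : T_TAN) (hIND : T_IND) (hBOR : T_BOR) : T_INZ := by
  intro k _ _ _ n r q Q hr hQ hq
  have H : ∀ Z : Ideal (MvPolynomial (Fin n) k), Ideal.span Q ≤ Z →
      Bd k n q Q fun K _ _ y D => ∀ g ∈ Z, aeval y g = 0 := by
    intro Z
    induction Z using WellFoundedGT.induction with
    | ind Z ih =>
      intro hQZ
      by_cases htop : Z = ⊤
      · refine bd_top fun K _ _ y D hV => ?_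
        have h1 := hV 1 (by rw [htop]; trivial)
        simp at h1
      have h2 : ∀ u : MvPolynomial (Fin n) k, u ∉ Z →
          Bd k n q Q fun K _ _ y D => ∀ g ∈ Z ⊔ Ideal.span {u}, aeval y g = 0 := by
        intro u huZ
        refine ih _ (lt_of_le_of_ne le_sup_left fun h3 => huZ ?_) (hQZ.trans le_sup_left)
        rw [h3]
        exact Ideal.mem_sup_right (Ideal.mem_span_singleton_self _)
      have h4 : ∀ (K : Type) [Field K] [Algebra k K] (y : Fin n → K), (∀ g ∈ Z, aeval y g = 0) →
          ∀ u : MvPolynomial (Fin n) k, aeval y u = 0 →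
          ∀ g ∈ Z ⊔ Ideal.span {u}, aeval y g = 0 := by
        intro K _ _ y hV u hu v hv
        obtain ⟨f1, hf1, f2, hf2, rfl⟩ := Submodule.mem_sup.1 hv
        obtain ⟨f3, rfl⟩ := Ideal.mem_span_singleton'.1 hf2
        rw [map_add, map_mul, hV f1 hf1, hu, mul_zero, add_zero]
      by_cases hp : Z.IsPrime
      · obtain ⟨f, P, hf, hPp, hPh, hPs, hPt, hlift⟩ :=
          hTAN k n r Z hp (trdeg_le_of_dimLE hQ Z hp hQZ)
        refine hBOR k n q Q _ _ _ (h2 f hf) (hIND k n r q Q hr hQ hq P hPp hPh hPs hPt) ?_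
        intro K _ _ y D _ hV
        by_cases hf0 : aeval y f = 0
        · exact Or.inl (h4 K y hV f hf0)
        · exact Or.inr (hlift K D y hV hf0)
      · obtain ⟨f, g, hfg, hfZ, hgZ⟩ : ∃ f g : MvPolynomial (Fin n) k, f * g ∈ Z ∧ f ∉ Z ∧
            g ∉ Z := by
          by_contra hc
          push Not at hc
          exact hp ⟨htop, fun {f g} hfg => or_iff_not_imp_left.2 (hc f g hfg)⟩
        refine hBOR k n q Q _ _ _ (h2 f hfZ) (h2 g hgZ) ?_
        intro K _ _ y D _ hV
        have h3 := hV _ hfg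
        rw [map_mul, mul_eq_zero] at h3
        rcases h3 with h3 | h3
        · exact Or.inl (h4 K y hV f h3)
        · exact Or.inr (h4 K y hV g h3)
  have H0 := H (Ideal.span Q) le_rfl
  refine hBOR k n q Q _ _ _ H0 H0 ?_
  intro K _ _ y D hy _
  left
  have h1 : Ideal.span Q ≤ RingHom.ker (aeval y : MvPolynomial (Fin n) k →ₐ[k] K) :=
    Ideal.span_le.2 fun g hg => hy g hg
  intro g hg
  exact h1 hg

end Pool.Agent.H52.AV
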