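import Pool.Agent.H30.AV.Targets

/-!
# MP_70ba79_ag, board `avr_modules`: LAT, a free graded submodule
-/

set_option autoImplicit false

namespace Pool.Agent.H52.AV

open MvPolynomial SC Pool.Agent.H27.LV Pool.Agent.H30.AV

section

variable {L τ : Type} [Field L]

/-- components of a product with a form -/
lemma comp_mul_form {p q : MvPolynomial τ L} {e : ℕ} (hq : q.IsHomogeneous e) (D : ℕ) :
    homogeneousComponent D (p * q) =
      if e ≤ D then homogeneousComponent (D - e) p * q else 0 := by
  conv_lhs => rw [← sum_homogeneousComponent p]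
  rw [Finset.sum_mul, map_sum]
  have h1 : ∀ i, homogeneousComponent D (homogeneousComponent i p * q) =
      if i + e = D then homogeneousComponent i p * q else 0 := by
    intro i
    rw [homogeneousComponent_of_mem (m := D) (n := i + e)
      ((homogeneousComponent_isHomogeneous i p).mul hq)]
    by_cases h : i + e = D
    · rw [if_pos h, if_pos h.symm]
    · rw [if_neg h, if_neg (fun h' => h h'.symm)]
  rw [Finset.sum_congr rfl fun i _ => h1 i]
  by_cases he : e ≤ D
  · rw [if_pos he]
    by_cases hD : D - e ∈ Finset.range (p.totalDegree + 1)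
    · rw [Finset.sum_eq_single_of_mem (D - e) hD, if_pos (by omega)]
      intro i _ hi
      rw [if_neg (by omega)]
    · rw [Finset.sum_eq_zero, homogeneousComponent_eq_zero, zero_mul]
      · rw [Finset.mem_range] at hD
        omega
      · intro i hi
        rw [Finset.mem_range] at hi hD
        rw [if_neg (by omega)]
  · rw [if_neg he]
    refine Finset.sum_eq_zero fun i _ => ?_
    rw [if_neg (by omega)]

/-- components of a polynomial in linear forms -/
lemma comp_aeval {n : ℕ} {t : Fin n → MvPolynomial τ L} (ht : ∀ i, (t i).IsHomogeneous 1)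
    (f : MvPolynomial (Fin n) L) (D : ℕ) :
    homogeneousComponent D (aeval t f) = aeval t (homogeneousComponent D f) := by
  conv_lhs => rw [← sum_homogeneousComponent f]
  rw [map_sum, map_sum]
  have h1 : ∀ i, homogeneousComponent D (aeval t (homogeneousComponent i f)) =
      if i = D then aeval t (homogeneousComponent i f) else 0 := by
    intro i
    have h2 := (homogeneousComponent_isHomogeneous i f).aeval t ht
    rw [one_mul] at h2
    rw [homogeneousComponent_of_mem (m := D) (n := i) h2]
    by_cases h : i = D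
    · rw [if_pos h, if_pos h.symm]
    · rw [if_neg h, if_neg (fun h' => h h'.symm)]
  rw [Finset.sum_congr rfl fun i _ => h1 i]
  by_cases hD : D ∈ Finset.range (f.totalDegree + 1)
  · rw [Finset.sum_eq_single_of_mem D hD, if_pos rfl]
    intro i _ hi
    rw [if_neg hi]
  · rw [Finset.sum_eq_zero, homogeneousComponent_eq_zero, map_zero]
    · rw [Finset.mem_range] at hD
      omega
    · intro i hi
      rw [if_neg]
      rintro rfl
      exact hD hi

/-- zero or homogeneous of degree `D - e` -/
def HZ {n : ℕ} (D e : ℕ) (p : MvPolynomial (Fin n) L) : Prop :=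
  p = 0 ∨ ∃ a, a + e = D ∧ p.IsHomogeneous a

lemma HZ.add {n D e : ℕ} {p q : MvPolynomial (Fin n) L} (hp : HZ D e p) (hq : HZ D e q) :
    HZ D e (p + q) := by
  rcases hp with rfl | ⟨a, ha, hp⟩
  · rwa [zero_add]
  · rcases hq with rfl | ⟨b, hb, hq⟩
    · rw [add_zero]
      exact Or.inr ⟨a, ha, hp⟩
    · have : a = b := by omega
      subst this
      exact Or.inr ⟨a, ha, hp.add hq⟩

lemma HZ.sum {n D e : ℕ} {ι : Type} (s : Finset ι) {p : ι → MvPolynomial (Fin n) L}
    (h : ∀ i ∈ s, HZ D e (p i)) : HZ D e (∑ i ∈ s, p i) := by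
  classical
  induction s using Finset.induction_on with
  | empty => exact Or.inl rfl
  | insert a s ha ih =>
    rw [Finset.sum_insert ha]
    exact (h a (Finset.mem_insert_self _ _)).add (ih fun i hi => h i (Finset.mem_insert_of_mem hi))

end

theorem pf_LAT (hMOD : T_MOD) : T_LAT := by
  classical
  intro L τ _ _ β m P t hP hhom ht hm hind
  obtain ⟨U, hU⟩ : ∃ U : Finset (τ →₀ ℕ), ∀ M, M ∈ U ↔ M.degree < m + 1 := by
    refine ⟨(Finsupp.finite_of_degree_lt (σ := τ) (m + 1)).toFinset, fun M => ?_⟩
    rw [Set.Finite.mem_toFinset]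
    rfl
  -- independent sets of monomials
  obtain ⟨Ind, hIndd⟩ : ∃ Ind : Finset (τ →₀ ℕ) → Prop, ∀ E, Ind E ↔
      ∀ h : (τ →₀ ℕ) → MvPolynomial (Fin (β + 2)) L,
        ∑ M ∈ E, aeval t (h M) * monomial M 1 ∈ P → ∀ M ∈ E, h M = 0 :=
    ⟨_, fun _ => Iff.rfl⟩
  have hInd0 : Ind ∅ := by
    rw [hIndd]
    intro h _ M hM
    simp at hM
  obtain ⟨E, hE, hEmax⟩ := Finset.exists_maximal (s := U.powerset.filter Ind)
    ⟨∅, by rw [Finset.mem_filter]; exact ⟨Finset.empty_mem_powerset _, hInd0⟩⟩
  rw [Finset.mem_filter, Finset.mem_powerset] at hE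
  obtain ⟨hEU, hEI⟩ := hE
  have hmax : ∀ M ∈ U, M ∉ E → ¬ Ind (insert M E) := by
    intro M hM hME hI
    have h1 := hEmax (y := insert M E) (by
      change insert M E ∈ U.powerset.filter Ind
      rw [Finset.mem_filter, Finset.mem_powerset]
      exact ⟨Finset.insert_subset hM hEU, hI⟩) (Finset.subset_insert _ _)
    exact hME (h1 (Finset.mem_insert_self _ _))
  have hEne : E.Nonempty := by
    rw [Finset.nonempty_iff_ne_empty]
    rintro rfl
    refine hmax 0 ((hU 0).2 (by simp)) (Finset.notMem_empty _) ?_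
    rw [hIndd]
    intro h hsum M hM
    have hM0 : M = 0 := by simpa using hM
    subst hM0
    apply hind
    simpa using hsum
  -- relations
  have hrel : ∀ M ∈ U, ∃ (a : ℕ) (g : MvPolynomial (Fin (β + 2)) L)
      (h : (τ →₀ ℕ) → MvPolynomial (Fin (β + 2)) L), g.IsHomogeneous a ∧ g ≠ 0 ∧
      (∀ M' ∈ E, HZ (a + M.degree) M'.degree (h M')) ∧
      aeval t g * monomial M 1 - ∑ M' ∈ E, aeval t (h M') * monomial M' 1 ∈ P := by
    intro M hM
    by_cases hME : M ∈ E
    · refine ⟨0, 1, Pi.single M 1, isHomogeneous_one _ _, one_ne_zero, fun M' _ => ?_, ?_⟩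
      · by_cases h : M' = M
        · subst h
          rw [Pi.single_eq_same]
          exact Or.inr ⟨0, rfl, isHomogeneous_one _ _⟩
        · rw [Pi.single_eq_of_ne h]
          exact Or.inl rfl
      · rw [Finset.sum_eq_single_of_mem M hME]
        · rw [Pi.single_eq_same, sub_self]
          exact P.zero_mem
        · intro M' _ h
          rw [Pi.single_eq_of_ne h, map_zero, zero_mul]
    · have h1 := hmax M hM hME
      rw [hIndd] at h1
      push Not at h1
      obtain ⟨h, hsum, M', hM', hne⟩ := h1
      rw [Finset.sum_insert hME] at hsum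
      have hMne : h M ≠ 0 := by
        intro h0
        rw [h0, map_zero, zero_mul, zero_add] at hsum
        have h2 := (hIndd E).1 hEI h hsum
        rcases Finset.mem_insert.1 hM' with rfl | h3
        · exact hne h0
        · exact hne (h2 M' h3)
      obtain ⟨a, ha⟩ : ∃ a, homogeneousComponent a (h M) ≠ 0 := by
        by_contra hc
        push Not at hc
        apply hMne
        rw [← sum_homogeneousComponent (h M)]
        exact Finset.sum_eq_zero fun i _ => hc i
      have h3 := hhom _ hsum (a + M.degree)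
      rw [map_add, comp_mul_form (isHomogeneous_monomial 1 rfl), if_pos (by omega),
        Nat.add_sub_cancel, comp_aeval ht, map_sum] at h3
      refine ⟨a, homogeneousComponent a (h M), fun M' => if M'.degree ≤ a + M.degree then
        - homogeneousComponent (a + M.degree - M'.degree) (h M') else 0,
        homogeneousComponent_isHomogeneous _ _, ha, fun M' _ => ?_, ?_⟩
      · by_cases hle : M'.degree ≤ a + M.degree
        · simp only [if_pos hle]
          exact Or.inr ⟨a + M.degree - M'.degree, by omega,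
            (homogeneousComponent_isHomogeneous _ _).neg⟩
        · simp only [if_neg hle]
          exact Or.inl rfl
      · have h4 : ∑ M' ∈ E, aeval t (if M'.degree ≤ a + M.degree then
            - homogeneousComponent (a + M.degree - M'.degree) (h M') else 0) * monomial M' 1 =
            - ∑ M' ∈ E, homogeneousComponent (a + M.degree) (aeval t (h M') * monomial M' 1) := by
          rw [← Finset.sum_neg_distrib]
          refine Finset.sum_congr rfl fun M' _ => ?_
          rw [comp_mul_form (isHomogeneous_monomial 1 rfl)]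
          by_cases hle : M'.degree ≤ a + M.degree
          · rw [if_pos hle, if_pos hle, map_neg, neg_mul, comp_aeval ht]
          · rw [if_neg hle, if_neg hle, map_zero, zero_mul, neg_zero]
        rw [h4, sub_neg_eq_add]
        exact h3
  choose! a g h hgh hg0 hhZ hmem using hrel
  obtain ⟨φ⟩ : Nonempty (Fin E.card ≃ E) := ⟨E.equivFin.symm⟩
  have hsumφ : ∀ F : (τ →₀ ℕ) → MvPolynomial τ L, ∑ j : Fin E.card, F (φ j) = ∑ M ∈ E, F M := by
    intro F
    rw [← Finset.sum_coe_sort E F]
    exact Equiv.sum_comp φ fun M : E => F M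
  refine ⟨E.card, fun j => monomial (φ j : τ →₀ ℕ) 1, fun j => (φ j : τ →₀ ℕ).degree,
    ∏ M ∈ U, g M, ∑ M ∈ U, a M, Finset.card_pos.2 hEne,
    fun j => isHomogeneous_monomial 1 rfl, IsHomogeneous.prod _ _ _ hgh,
    Finset.prod_ne_zero_iff.2 hg0, ?_, ?_⟩
  · intro H hH
    -- extend to all monomials
    obtain ⟨H', hH'⟩ : ∃ H' : (τ →₀ ℕ) → MvPolynomial (Fin (β + 2)) L,
        ∀ j, H' (φ j) = H j := by
      refine ⟨fun M => if hM : M ∈ E then H (φ.symm ⟨M, hM⟩) else 0, fun j => ?_⟩
      simp only
      rw [dif_pos (φ j).2]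
      simp
    have h1 := (hIndd E).1 hEI H' (by
      rw [← hsumφ fun M => aeval t (H' M) * monomial M 1]
      simp only [hH']
      exact hH)
    funext j
    rw [← hH' j]
    exact h1 _ (φ j).2
  · intro N G hG
    obtain ⟨s, c, hs, hsum⟩ := hMOD L τ β m P t hhom ht hm N G hG
    have hsU : ∀ M ∈ s, M ∈ U := fun M hM => (hU M).2 (by have := (hs M hM).1; omega)
    refine ⟨fun j => ∑ M ∈ s, c M * (∏ M' ∈ U.erase M, g M') * h M (φ j), fun j => ?_, ?_⟩
    · refine HZ.sum (D := N + ∑ M ∈ U, a M) (e := (φ j : τ →₀ ℕ).degree) s fun M hM => ?_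
      rcases hhZ M (hsU M hM) (φ j) (φ j).2 with h1 | ⟨b, hb, h1⟩
      · rw [h1, mul_zero]
        exact Or.inl rfl
      · refine Or.inr ⟨N - M.degree + ∑ M' ∈ U.erase M, a M' + b, ?_,
          ((hs M hM).2.2.mul (IsHomogeneous.prod _ _ _ fun M' hM' =>
            hgh M' (Finset.mem_of_mem_erase hM'))).mul h1⟩
        have h2 : a M + ∑ M' ∈ U.erase M, a M' = ∑ M' ∈ U, a M' :=
          Finset.add_sum_erase U a (hsU M hM)
        have h3 := (hs M hM).2.1
        omega
    · rw [hsumφ fun M'' => aeval t (∑ M ∈ s, c M * (∏ M' ∈ U.erase M, g M') * h M M'') *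
        monomial M'' 1]
      have h5 : ∑ M'' ∈ E, aeval t (∑ M ∈ s, c M * (∏ M' ∈ U.erase M, g M') * h M M'') *
          monomial M'' 1 = ∑ M ∈ s, aeval t (c M * ∏ M' ∈ U.erase M, g M') *
            ∑ M'' ∈ E, aeval t (h M M'') * monomial M'' 1 := by
        simp only [map_sum, Finset.sum_mul, Finset.mul_sum]
        rw [Finset.sum_comm]
        refine Finset.sum_congr rfl fun M _ => Finset.sum_congr rfl fun M'' _ => ?_
        rw [map_mul _ (c M * _)]
        ring
      have h6 : aeval t (∏ M ∈ U, g M) * ∑ M ∈ s, aeval t (c M) * monomial M 1 =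
          ∑ M ∈ s, aeval t (c M * ∏ M' ∈ U.erase M, g M') * (aeval t (g M) * monomial M 1) := by
        rw [Finset.mul_sum]
        refine Finset.sum_congr rfl fun M hM => ?_
        rw [← Finset.mul_prod_erase U g (hsU M hM), map_mul, map_mul]
        ring
      have h7 : aeval t (∏ M ∈ U, g M) * G - ∑ M ∈ s, aeval t (c M * ∏ M' ∈ U.erase M, g M') *
          ∑ M'' ∈ E, aeval t (h M M'') * monomial M'' 1 =
          aeval t (∏ M ∈ U, g M) * (G - ∑ M ∈ s, aeval t (c M) * monomial M 1) +
          ∑ M ∈ s, aeval t (c M * ∏ M' ∈ U.erase M, g M') *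
            (aeval t (g M) * monomial M 1 - ∑ M'' ∈ E, aeval t (h M M'') * monomial M'' 1) := by
        simp only [mul_sub, Finset.sum_sub_distrib]
        rw [h6]
        ring
      rw [h5, h7]
      exact P.add_mem (P.mul_mem_left _ hsum) (P.sum_mem fun M hM =>
        P.mul_mem_left _ (hmem M (hsU M hM)))

end Pool.Agent.H52.AV
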