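import Pool.Agent.H30.AV.Targets3

/-!
# MP_70ba79_ag, board `avr_modules`: LNF, the theorem for linear polynomials
-/

set_option autoImplicit false

namespace Pool.Agent.H52.AV

open MvPolynomial SC Pool.Agent.H27.LV Pool.Agent.H30.AV

section

variable {k K : Type} [Field k] [IsAlgClosed k] [CharZero k] [Field K] [Algebra k K]
  [Algebra.EssFiniteType k K]

/-- adding roots of linear forms in the coordinates does not change the degree -/
lemma deg_elim_le (htr : Algebra.trdeg k K = 1) {n q : ℕ} (a : Fin q → Fin (n + 1) → k)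
    (μ : Fin q → ℕ) (hμ : ∀ i, 2 ≤ μ i) (y : Fin n → K) (x : Fin q → K) (hx0 : ∀ i, x i ≠ 0)
    (hx : ∀ i, x i ^ μ i = ell (a i) (xx y)) :
    (deg k (Sum.elim y x) : ℤ) ≤ deg k y := by
  have hpo : ∀ v : DV k K, poleOrder v (Sum.elim y x) ≤ poleOrder v y := by
    intro v
    refine poleOrder_le v _ _ fun i => ?_
    rcases i with j | i
    · exact npole_le v y j
    · simp only [Sum.elim_inr]
      have h4 : -(poleOrder v y : ℤ) ≤ v.ord (ell (a i) (xx y)) := by
        rcases ge_ell v (a i) y with h | h
        · exact absurd h (by rw [← hx i]; exact pow_ne_zero _ (hx0 i))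
        · exact h
      rw [← hx i, v.ord_pow] at h4
      have h7 : (2 : ℤ) ≤ μ i := by exact_mod_cast hμ i
      by_contra hcon
      push Not at hcon
      nlinarith
  rw [cast_deg htr, cast_deg htr]
  have hPf : (Function.support fun v : DV k K => (poleOrder v y : ℤ)).Finite := by
    refine (pfi k K htr _ y).subset fun v hv => ?_
    simpa using hv
  have hPf' : (Function.support fun v : DV k K =>
      (poleOrder v (Sum.elim y x) : ℤ)).Finite := by
    refine (pfi k K htr _ (Sum.elim y x)).subset fun v hv => ?_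
    simpa using hv
  have h5 : 0 ≤ ∑ᶠ v : DV k K, ((poleOrder v y : ℤ) - poleOrder v (Sum.elim y x)) := by
    refine finsum_nonneg fun v => ?_
    have := hpo v
    omega
  rw [finsum_sub_distrib hPf hPf'] at h5
  omega

end

theorem pf_LNF (hINZ : T_INZ) : T_LNF := by
  intro k _ _ _ n r q Q hr hQ hq
  obtain ⟨Δ, B, hΔ, hB, H⟩ := hINZ k n r q Q hr hQ hq
  refine ⟨Δ, B, hΔ, fun a ha μ hμ => ?_⟩
  intro K _ _ _ htr S z hP hreg hnc hh D hD
  obtain ⟨y, hy⟩ : ∃ y : Fin n → K, y = fun j => z (Sum.inl j) := ⟨_, rfl⟩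
  obtain ⟨x, hx⟩ : ∃ x : Fin q → K, x = fun i => z (Sum.inr i) := ⟨_, rfl⟩
  have hz : z = Sum.elim y x := by
    funext s
    rcases s with j | i
    · rw [hy]; rfl
    · rw [hx]; rfl
  have hx0 : ∀ i, x i ≠ 0 := by
    intro i h0
    apply hh
    rw [map_prod]
    refine Finset.prod_eq_zero (Finset.mem_univ i) ?_
    rw [aeval_X, ← h0, hx]
  have hxe : ∀ i, x i ^ μ i = ell (a i) (xx y) := by
    intro i
    have h1 := hP _ (Or.inr ⟨i, rfl⟩)
    simp only [map_sub, map_pow, aeval_X, map_add, map_sum, map_mul, aeval_C] at h1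
    rw [sub_eq_zero] at h1
    rw [hx]
    simp only
    rw [h1]
    unfold ell xx
    rw [Fin.sum_univ_succ]
    simp only [Fin.cons_zero, Fin.cons_succ, mul_one, hy]
  have hnc' : ∃ j, y j ∉ Set.range (algebraMap k K) := by
    by_contra hcon
    push Not at hcon
    obtain ⟨s, hs⟩ := hnc
    apply hs
    rcases s with j | i
    · have := hcon j
      rw [hy] at this
      exact this
    · have h1 : ell (a i) (xx y) ∈ Set.range (algebraMap k K) := by
        have h2 : ∀ j, xx y j ∈ (algebraMap k K).range := by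
          intro j
          refine Fin.cases ?_ (fun j => ?_) j
          · exact one_mem _
          · exact hcon j
        have h3 : ell (a i) (xx y) ∈ (algebraMap k K).range :=
          sum_mem fun j _ => mul_mem ⟨_, rfl⟩ (h2 j)
        exact h3
      obtain ⟨c, hc⟩ := h1
      have h4 : IsAlgebraic k (x i ^ μ i) := by
        rw [hxe i, ← hc]
        exact isAlgebraic_algebraMap c
      have h5 : IsAlgebraic k (x i) := h4.of_pow (by have := hμ i; omega)
      have h6 := mem_range_of_isAlgebraic h5
      rw [hx] at h6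
      exact h6
  have hyQ : ∀ g ∈ Q, aeval y g = 0 := by
    intro g hg
    have h1 := hP _ (Or.inl ⟨g, hg, rfl⟩)
    rw [aeval_rename] at h1
    rw [hy]
    exact h1
  have h7 := H a ha μ hμ K htr S y x D hD hyQ (fun v hv j => by
      have := hreg v hv (Sum.inl j)
      rw [hy]
      exact this) hnc' hx0 hxe trivial
  rw [hz]
  exact (deg_elim_le htr a μ hμ y x hx0 hxe).trans h7

end Pool.Agent.H52.AV
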