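import Pool.Agent.H91.AV.Targets
import Pool.Agent.H78.KX.PAD

/-!
# MP_c62aed_lc: row PADA, padding of the clauses, programs chosen after the formula
-/

namespace Pool.Agent.H52.AV

open Finset Pool.Agent.H91.AV
open Pool.Agent.H96.KX (psz fac jun PDz prs)
open Pool.Agent.H1.LP (Clause viol Relax)
open Pool.Agent.H78.KX (ext ext_card ext_card' sum_pad viol_pad loss_avg rest pad pe)

theorem refutedBy_pad {n r m M : ℕ} (P : Fin M → Relax (n + r)) (phi : Fin m → Clause n)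
    (de de' S S' : ℝ) (hd : de' ≤ de / 2 ^ r) (hS : S ≤ S') (h : RefutedBy P (pad r phi) de S) :
    RefutedBy (fun j => rest (P j)) phi de' S' := by
  obtain ⟨J, h1, h2, h3, hs⟩ := h
  refine ⟨J, ?_, ?_, ?_, hs.trans hS⟩
  · intro j hj j' hj' hne
    have := h1 j hj j' hj' hne
    rw [Finset.disjoint_left] at this ⊢
    intro x hx hx'
    exact this (mem_filter.1 hx).2 (mem_filter.1 hx').2
  · intro x
    obtain ⟨j, hj, hx⟩ := h2 (Fin.append x (fun _ => false))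
    exact ⟨j, hj, mem_filter.2 ⟨mem_univ _, hx⟩⟩
  · intro j hj y hy
    have h4 := h3 j hj y hy
    rw [sum_pad phi (fun C => (P j).loss C y)] at h4
    refine hd.trans ?_
    have h5 : ∑ i, (rest (P j)).loss (phi i) y =
        (∑ i, ∑ s : Fin r → Bool, (P j).loss (ext (phi i) s) y) / 2 ^ r := by
      rw [Finset.sum_div]
      exact Finset.sum_congr rfl fun i _ => loss_avg (P j) (phi i) y
    rw [h5]
    exact div_le_div_of_nonneg_right h4 (by positivity)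

theorem pf_PADA : S_PADA := by
  classical
  intro w k ε c c' C C' hwk hcc hCC hH
  obtain ⟨r, rfl⟩ := Nat.exists_eq_add_of_le hwk
  obtain ⟨K, γ, hγ, n₀, hn₀⟩ := hH
  have hd : 0 < c - c' := sub_pos.2 hcc
  have hd' : 0 < C - C' := sub_pos.2 hCC
  obtain ⟨N1, hN1⟩ := exists_nat_ge (c * r / (c - c'))
  obtain ⟨N3, hN3⟩ := exists_nat_ge (C * r / (C - C'))
  obtain ⟨N2, hN2⟩ := exists_nat_ge ((γ + 1) * r / (γ / 2))
  refine ⟨K * 2 ^ r, γ / 2, by positivity, n₀ + r + N1 + N2 + N3, ?_⟩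
  intro n hn
  obtain ⟨n1, rfl⟩ : ∃ n1, n = n1 + r := ⟨n - r, by omega⟩
  obtain ⟨Y, m, phi, hY, hphi, hmain⟩ := hn₀ n1 (by omega)
  have hA : c' * ((n1 + r : ℕ) : ℝ) ≤ c * n1 := by
    have h1 : (N1 : ℝ) ≤ ((n1 + r : ℕ) : ℝ) := by exact_mod_cast (by omega : N1 ≤ n1 + r)
    have h2 : c * r ≤ ((n1 + r : ℕ) : ℝ) * (c - c') := (div_le_iff₀ hd).1 (hN1.trans h1)
    have h3 : ((n1 + r : ℕ) : ℝ) = n1 + r := by push_cast; ring
    rw [h3] at h2 ⊢
    nlinarith
  have hA' : C' * ((n1 + r : ℕ) : ℝ) ≤ C * n1 := by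
    have h1 : (N3 : ℝ) ≤ ((n1 + r : ℕ) : ℝ) := by exact_mod_cast (by omega : N3 ≤ n1 + r)
    have h2 : C * r ≤ ((n1 + r : ℕ) : ℝ) * (C - C') := (div_le_iff₀ hd').1 (hN3.trans h1)
    have h3 : ((n1 + r : ℕ) : ℝ) = n1 + r := by push_cast; ring
    rw [h3] at h2 ⊢
    nlinarith
  have hB : (γ + 1) * r ≤ ((n1 + r : ℕ) : ℝ) * (γ / 2) := by
    have h1 : (N2 : ℝ) ≤ ((n1 + r : ℕ) : ℝ) := by exact_mod_cast (by omega : N2 ≤ n1 + r)
    exact (div_le_iff₀ (by positivity)).1 (hN2.trans h1)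
  have hC : (2 : ℝ) ^ (-(γ * n1)) ≤ (2 : ℝ) ^ (-(γ / 2 * ((n1 + r : ℕ) : ℝ))) / 2 ^ r := by
    rw [le_div_iff₀ (by positivity), ← Real.rpow_natCast 2 r, ← Real.rpow_add (by norm_num)]
    refine Real.rpow_le_rpow_of_exponent_le (by norm_num) ?_
    have h3 : ((n1 + r : ℕ) : ℝ) = n1 + r := by push_cast; ring
    rw [h3] at hB ⊢
    nlinarith
  have hD : (2 : ℝ) ^ (-(γ * n1)) ≤ (2 : ℝ) ^ (-(γ / 2 * ((n1 + r : ℕ) : ℝ))) := by
    refine hC.trans (div_le_self (by positivity) ?_)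
    exact one_le_pow₀ (by norm_num)
  refine ⟨Y, fun a => m a * 2 ^ r, fun a => pad r (phi a), hY, ?_, ?_⟩
  · intro a
    obtain ⟨h1, h2, h3, h4⟩ := hphi a
    refine ⟨Nat.mul_pos h1 (by positivity), ?_, ?_, ?_⟩
    · calc m a * 2 ^ r ≤ K * n1 * 2 ^ r := Nat.mul_le_mul_right _ h2
        _ = K * 2 ^ r * n1 := by ring
        _ ≤ K * 2 ^ r * (n1 + r) := Nat.mul_le_mul_left _ (by omega)
    · intro i
      unfold pad
      exact ⟨by rw [ext_card, (h3 _).1], by rw [ext_card', (h3 _).2]⟩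
    · intro x
      rw [viol_pad]
      refine le_trans (le_of_eq ?_) (h4 _)
      have h5 : (((m a * 2 ^ r : ℕ) : ℝ)) = m a * 2 ^ r := by push_cast; ring
      rw [h5, pow_add]
      field_simp
  · intro M P hP
    have h1 := hmain M (fun j => rest (P j)) ?_
    · refine le_trans ?_ (h1.trans (mul_le_mul_of_nonneg_right hD (by positivity)))
      norm_cast
      refine Finset.card_le_card fun a ha => ?_
      rw [mem_filter] at ha ⊢
      exact ⟨ha.1, refutedBy_pad P (phi a) _ _ _ _ hC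
        (Real.rpow_le_rpow_of_exponent_le (by norm_num) hA) ha.2⟩
    · refine hP.trans (Real.rpow_le_rpow_of_exponent_le (by norm_num) hA')

end Pool.Agent.H52.AV
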